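import Pool.Agent.H696R2.RD.Rand

set_option autoImplicit false

/-!
# MP_33dedf_lc, Q1: a criterion for the negative answer, and negative answers on every cone

Definitions used in the statement (from `Pool.Agent.Helper227`):
* `TLe A B` : Turing reducibility; `jump A` : the Turing jump of `A`; `zero` : the empty set;
* `CEIn A W` : the set `W` of natural numbers is c.e. relative to `A`;
* `IsUniversalIn A U` : `U` is a universal prefix-free machine relative to `A`;
* `KU U y` : the complexity of the string `y` with respect to the machine `U`;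
* `dimU U X = liminf KU U (X ↾ n) / n` (for `U` universal relative to `A` this is `dim^A(X)`);
and from `Pool.Agent.H696R2.RD`:
* `rbin S` : the real number with binary expansion `0.S(0)S(1)S(2)...`;
* `upperCut S` : the set of all codes of pairs `(a, b)` with `rbin S < a / (b + 1)`.
-/

namespace Pool.Agent.Results.MP_33dedf_lc.EveryConeNegative

open Pool.Agent.Helper227 Pool.Agent.H696R2.RD

/-- A machine relative to `A` is a machine relative to every `B ≥_T A`. -/
theorem machine_mono {A B : ℕ → Bool} {M : List Bool →. List Bool} (h : TLe A B)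
    (hM : IsMachineIn A M) : IsMachineIn B M :=
  ⟨SI.iff_recIn.2 (SI.trans (SI.iff_recIn.1 hM.1) h), hM.2⟩

/-- The dimension relative to a weaker oracle is at least as large. -/
theorem dim_anti {A B : ℕ → Bool} {U V : List Bool →. List Bool} (h : TLe A B)
    (hU : IsUniversalIn A U) (hV : IsUniversalIn B V) (X : ℕ → Bool) : dimU V X ≤ dimU U X := by
  obtain ⟨c, hc⟩ := hV.2 U (machine_mono h hU.1)
  refine dimU_le_of (c := c) fun y => ?_
  obtain ⟨τ, h1, h2⟩ := hU.exists_min y
  obtain ⟨τ', h3, h4⟩ := hc τ y h2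
  have h5 : KU V y ≤ τ'.length := Nat.sInf_le ⟨τ', rfl, h4⟩
  omega

/-- (1) If the upper cut of `s = rbin S` is c.e. relative to `O`, then `S ≤_T X'` for all `X` such
that `O ≤_T X'` and `dim^Z(X) = s` for some oracle `Z ≤_T X`.
(2) Hence, with `Z = ∅`, the question has a negative answer for every `s` whose upper cut is c.e.
relative to `0'` and whose binary expansion has dimension larger than `s` relative to `0'`.
(3) For every oracle `Z` every interval contains a real `s = rbin S` such that the upper cut of `s`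
is c.e. relative to `Z'`, `S` is random relative to `Z'`, and every `X ≥_T Z` with `dim^Z(X) = s`
has some `Y ≤_T X'` (namely `S`) with `dim^{Z'}(Y) > s`, and `dim^{0'}(Y) > s`. -/
theorem result :
    (∀ (O S Z X : ℕ → Bool) (U : List Bool →. List Bool), CEIn O (upperCut S) →
      IsUniversalIn Z U → TLe Z X → TLe O (jump X) → dimU U X = ENNReal.ofReal (rbin S) →
      TLe S (jump X)) ∧
    (∀ S : ℕ → Bool, CEIn (jump zero) (upperCut S) →
      (∀ V, IsUniversalIn (jump zero) V → ENNReal.ofReal (rbin S) < dimU V S) →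
      ∀ X : ℕ → Bool, (∃ U, IsUniversalIn zero U ∧ dimU U X = ENNReal.ofReal (rbin S)) →
        ∃ Y : ℕ → Bool, TLe Y (jump X) ∧
          ∀ V, IsUniversalIn (jump zero) V → ENNReal.ofReal (rbin S) < dimU V Y) ∧
    ∀ (Z : ℕ → Bool) (a b : ℝ), 0 ≤ a → a < b → b ≤ 1 →
      ∃ S : ℕ → Bool, (a < rbin S ∧ rbin S < b) ∧ CEIn (jump Z) (upperCut S) ∧
        (∀ V, IsUniversalIn (jump Z) V →
          ∃ c : ℕ, ∀ n, n ≤ KU V ((List.range n).map S) + c) ∧
        ∀ X : ℕ → Bool, TLe Z X →
          (∃ U, IsUniversalIn Z U ∧ dimU U X = ENNReal.ofReal (rbin S)) →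
          ∃ Y : ℕ → Bool, TLe Y (jump X) ∧
            (∀ V, IsUniversalIn (jump Z) V → ENNReal.ofReal (rbin S) < dimU V Y) ∧
            ∀ V, IsUniversalIn (jump zero) V → ENNReal.ofReal (rbin S) < dimU V Y := by
  have key : ∀ (O S Z X : ℕ → Bool) (U : List Bool →. List Bool), CEIn O (upperCut S) →
      IsUniversalIn Z U → TLe Z X → TLe O (jump X) → dimU U X = ENNReal.ofReal (rbin S) →
      TLe S (jump X) := fun O S Z X U hS hU hZ hO hd => main_cut hU hZ hO hS hd
  refine ⟨key, fun S hS hV X hX => ?_, fun Z a b ha hab hb => ?_⟩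
  · obtain ⟨U, hU, hd⟩ := hX
    exact ⟨S, key _ S zero X U hS hU (tLe_zero X) (TLe.jump (tLe_zero X)) hd, hV⟩
  · obtain ⟨V₀, hV₀⟩ := exists_universalIn (jump Z)
    obtain ⟨σ, h1, h2⟩ := exists_str ha hab hb
    have h5 := rbin_lower (app σ (Neg.YY V₀)) σ.length
    have h6 := rbin_upper (app σ (Neg.YY V₀)) σ.length
    rw [pre_app_le] at h5 h6
    have hS : CEIn (jump Z) (upperCut (app σ (Neg.YY V₀))) :=
      SI.iff_ceIn.2 (si_upperCut hV₀.1 σ)
    have hrand : ∀ V, IsUniversalIn (jump Z) V →
        ∃ c : ℕ, ∀ n, n ≤ KU V ((List.range n).map (app σ (Neg.YY V₀))) + c := fun V hV =>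
      random_app hV₀ hV (Y := Neg.YY V₀) (fun n => by
        obtain ⟨τ, h7, h8⟩ := hV₀.exists_min (pre (Neg.YY V₀) n)
        have h9 := Neg.not_bad_pre (Neg.not_bad_YY (ext_nil hV₀.1.2) n) h8
        omega) σ
    have hdim : ∀ V, IsUniversalIn (jump Z) V →
        ENNReal.ofReal (rbin (app σ (Neg.YY V₀))) < dimU V (app σ (Neg.YY V₀)) := by
      intro V hV
      obtain ⟨c, hc⟩ := hrand V hV
      refine lt_of_lt_of_le ?_ (one_le_dimU hc)
      rw [ENNReal.ofReal_lt_one]
      linarith
    refine ⟨app σ (Neg.YY V₀), ⟨by linarith, by linarith⟩, hS, hrand, fun X hZX hX => ?_⟩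
    obtain ⟨U, hU, hd⟩ := hX
    refine ⟨app σ (Neg.YY V₀), key _ _ Z X U hS hU hZX (TLe.jump hZX) hd, hdim, fun V hV => ?_⟩
    exact lt_of_lt_of_le (hdim V₀ hV₀) (dim_anti (TLe.jump (tLe_zero Z)) hV hV₀ _)

end Pool.Agent.Results.MP_33dedf_lc.EveryConeNegative
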